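import Pool.Agent.helper7.RC.Basic

/-!
# Module RC4: the neighbourhoods of `1` and the index of the centralizer
-/

namespace Pool.Agent.helper7.RC

open Pool.Agent.helper80.RSV Function

theorem exists_U_le_K {W : Set (FreeGroup ℕ)} {E : Type} [Group E] {a : E} (hE : Sat W E)
    (hAR : AR W E a) (ha : ASI a) (hcard : Cardinal.mk E < Cardinal.continuum)
    {K : Subgroup E} (hK : ∀ x, x ∈ K ↔ ∀ k, x ∈ cl (U a k)) : ∃ k, U a k ⊆ K := by
  have ha1 : a ≠ 1 := ha.1
  let F : Set (Set E) := {C | ∃ (g : E) (k : ℕ), C = (fun x => g * x) '' cl (U a k)}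
  have hF : F.Nonempty := ⟨_, 1, 0, rfl⟩
  have hclo : ∀ C ∈ F, Clo C := by
    rintro C ⟨g, k, rfl⟩
    exact (clo_cl _).image_mul g
  have hne : ∀ C ∈ F, C.Nonempty := by
    rintro C ⟨g, k, rfl⟩
    exact ⟨g * 1, 1, subset_cl _ (one_mem_U ha1 k), rfl⟩
  obtain ⟨C, ⟨g, k, rfl⟩, hC⟩ := tree hE hAR ha1 hcard hF hclo hne
  obtain ⟨r, hr⟩ := exists_isLim hE hAR ha1
  refine ⟨k, ?_⟩
  have key : ∀ u ∈ U a k, ∀ u' ∈ U a k, u⁻¹ * u' ∈ K := by
    intro u hu u' hu'
    obtain ⟨l1, hl1⟩ := U_mul hE hAR hu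
    obtain ⟨l2, hl2⟩ := U_mul hE hAR hu'
    -- common points
    have hcom : ∀ n : ℕ, ∃ x x' : E, (max l1 l2 ≤ n → x ∈ cl (U a n) ∧ x' ∈ cl (U a n) ∧
        u * x = u' * x') := by
      intro n
      by_cases hn : max l1 l2 ≤ n
      · have s1 : (fun x => g * u * x) '' cl (U a n) ⊆ (fun x => g * x) '' cl (U a k) := by
          rintro _ ⟨x, hx, rfl⟩
          refine ⟨u * x, ?_, ?_⟩
          · exact mul_cl (fun y hy => hl1 y (U_anti (le_trans (le_max_left _ _) hn) hy)) x hx
          · simp only [mul_assoc]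
        have s2 : (fun x => g * u' * x) '' cl (U a n) ⊆ (fun x => g * x) '' cl (U a k) := by
          rintro _ ⟨x, hx, rfl⟩
          refine ⟨u' * x, ?_, ?_⟩
          · exact mul_cl (fun y hy => hl2 y (U_anti (le_trans (le_max_right _ _) hn) hy)) x hx
          · simp only [mul_assoc]
        obtain ⟨z, ⟨x, hx, hxz⟩, x', hx', hxz'⟩ := hC _ ⟨g * u, n, rfl⟩ _ ⟨g * u', n, rfl⟩ s1 s2
        refine ⟨x, x', fun _ => ⟨hx, hx', ?_⟩⟩
        have e : g * u * x = g * u' * x' := by
          have e1 : g * u * x = z := hxz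
          have e2 : g * u' * x' = z := hxz'
          rw [e1, e2]
        rw [mul_assoc, mul_assoc] at e
        exact mul_left_cancel e
      · exact ⟨1, 1, fun h => absurd h hn⟩
    choose x x' hxx using hcom
    have hrx : r x ∈ K := by
      rw [hK]
      intro m
      refine (clo_cl (U a m)).eventually hr ⟨max m (max l1 l2), fun n hn => ?_⟩
      exact cl_mono (U_anti (le_trans (le_max_left _ _) hn)) (hxx n (le_trans (le_max_right _ _) hn)).1
    have hrx' : r x' ∈ K := by
      rw [hK]
      intro m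
      refine (clo_cl (U a m)).eventually hr ⟨max m (max l1 l2), fun n hn => ?_⟩
      exact cl_mono (U_anti (le_trans (le_max_left _ _) hn))
        (hxx n (le_trans (le_max_right _ _) hn)).2.1
    have h1 : r (fun n => u * x n) = r (fun n => u' * x' n) :=
      hr.congr ⟨max l1 l2, fun n hn => (hxx n hn).2.2⟩
    have h2 : r (fun n => u * x n) = u * r x := by
      have : (fun n => u * x n) = (fun _ => u) * x := rfl
      rw [this, map_mul, hr.1]
    have h3 : r (fun n => u' * x' n) = u' * r x' := by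
      have : (fun n => u' * x' n) = (fun _ => u') * x' := rfl
      rw [this, map_mul, hr.1]
    rw [h2, h3] at h1
    have h4 : u⁻¹ * u' = r x * (r x')⁻¹ := by
      rw [eq_mul_inv_iff_mul_eq, mul_assoc, ← h1, inv_mul_cancel_left]
    rw [h4]
    exact K.mul_mem hrx (K.inv_mem hrx')
  intro u hu
  have := key 1 (one_mem_U ha1 k) u hu
  rwa [inv_one, one_mul] at this

theorem finiteIndex_of_U {W : Set (FreeGroup ℕ)} (hc : SmallSI W) {E : Type} [Group E] {a : E}
    (hE : Sat W E) (ha : a ≠ 1) {C : Subgroup E} {k : ℕ} (hk : ∀ y, y ∉ C → a ∈ Ncl k y) :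
    C.FiniteIndex := by
  classical
  by_contra hfi
  have hinf : Infinite (E ⧸ C) := by
    rw [← not_finite_iff_infinite]
    intro hf
    exact hfi Subgroup.finiteIndex_of_finite_quotient
  let ι : ℕ ↪ E ⧸ C := Infinite.natEmbedding _
  let c : List Bool → E := fun l => (ι (Encodable.encode l)).out
  have hcne : ∀ l l' : List Bool, l ≠ l' → (c l)⁻¹ * c l' ∉ C := by
    intro l l' hll h
    apply hll
    have h1 : ((c l : E) : E ⧸ C) = (c l' : E) := QuotientGroup.eq.mpr h
    have h2 : ι (Encodable.encode l) = ι (Encodable.encode l') := by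
      have e1 : ((c l : E) : E ⧸ C) = ι (Encodable.encode l) := QuotientGroup.out_eq' _
      have e2 : ((c l' : E) : E ⧸ C) = ι (Encodable.encode l') := QuotientGroup.out_eq' _
      rw [← e1, ← e2, h1]
    exact Encodable.encode_injective (ι.injective h2)
  let H : Type := ℕ → E
  have hH : Sat W H := Sat.pi fun _ => hE
  let x : (ℕ → Bool) → H := fun f n => c (List.ofFn fun i : Fin n => f i)
  let aP : H := fun _ => a
  have haN : aP ∉ Ev (fun _ : ℕ => E) := by
    rintro ⟨m, hm⟩
    exact ha (hm m le_rfl)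
  obtain ⟨N, hNn, hN0N, haN', hmax⟩ := exists_max_avoid (Ev_normal (fun _ : ℕ => E)) haN
  have hinj : Injective fun f : ℕ → Bool => ((x f : H) : H ⧸ N) := by
    intro f g hfg
    by_contra hne
    apply haN'
    have hd : (x f)⁻¹ * x g ∈ N := QuotientGroup.eq.mp hfg
    obtain ⟨m, hm⟩ := Function.ne_iff.mp hne
    let b : H := fun n => if m < n then a else 1
    have hb : b ∈ Ncl k ((x f)⁻¹ * x g) := by
      apply A2.ncl_pi k
      intro n
      by_cases hn : m < n
      · have e1 : b n = a := if_pos hn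
        have e2 : ((x f)⁻¹ * x g) n = (c (List.ofFn fun i : Fin n => f i))⁻¹ *
            c (List.ofFn fun i : Fin n => g i) := rfl
        rw [e1, e2]
        apply hk
        apply hcne
        intro h
        apply hm
        have := List.ofFn_injective h
        exact congrFun this ⟨m, hn⟩
      · have e1 : b n = 1 := if_neg hn
        rw [e1]
        exact one_mem_Ncl k _
    have hbN : b ∈ N := Ncl_sub_normal hNn hd hb
    have h1 : b⁻¹ * aP ∈ Ev (fun _ : ℕ => E) := by
      refine ⟨m + 1, fun n hn => ?_⟩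
      have e1 : b n = a := if_pos hn
      have e2 : (b⁻¹ * aP) n = (b n)⁻¹ * a := rfl
      rw [e2, e1]
      exact inv_mul_cancel _
    have h2 : aP = b * (b⁻¹ * aP) := (mul_inv_cancel_left b aP).symm
    rw [h2]
    exact N.mul_mem hbN (hN0N h1)
  have hlt := hc (H ⧸ N) (hH.quotient N) (subdirIrr_quotient haN' hmax)
  have hle : Cardinal.mk (ℕ → Bool) ≤ Cardinal.mk (H ⧸ N) := Cardinal.mk_le_of_injective hinj
  have hcont : Cardinal.mk (ℕ → Bool) = Cardinal.continuum := by simp
  rw [hcont] at hle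
  exact absurd (lt_of_le_of_lt hle hlt) (lt_irrefl _)

end Pool.Agent.helper7.RC
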